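import Pool.Agent.Helper20.RL.St2

/-!
# Project RL, numbers: common lemmas for LNA, LNB, LNC, LND
-/

set_option autoImplicit false

open MeasureTheory Set Filter Topology

namespace Pool.Agent.Helper65.RL

open Pool.Agent.Helper20.RG Pool.Agent.Helper20.RL

/-- `N^e` with `N = 2^u` -/
noncomputable def X (u : ℕ) (e : ℝ) : ℝ := (2 : ℝ) ^ (e * u)

theorem X_pos (u : ℕ) (e : ℝ) : 0 < X u e := Real.rpow_pos_of_pos (by norm_num) _

theorem X_add (u : ℕ) (a b : ℝ) : X u (a + b) = X u a * X u b := by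
  unfold X
  rw [add_mul, Real.rpow_add (by norm_num)]

theorem X_mono (u : ℕ) {a b : ℝ} (h : a ≤ b) : X u a ≤ X u b := by
  unfold X
  apply Real.rpow_le_rpow_of_exponent_le (by norm_num)
  exact mul_le_mul_of_nonneg_right h (Nat.cast_nonneg u)

theorem X_zero (u : ℕ) : X u 0 = 1 := by unfold X; simp

theorem X_one (u : ℕ) : X u 1 = (2 : ℝ) ^ u := by
  unfold X; rw [one_mul, Real.rpow_natCast]

theorem one_le_X (u : ℕ) {a : ℝ} (h : 0 ≤ a) : 1 ≤ X u a := by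
  rw [← X_zero u]; exact X_mono u h

theorem X_neg (u : ℕ) (a : ℝ) : X u (-a) = (X u a)⁻¹ := by
  unfold X
  rw [neg_mul, Real.rpow_neg (by norm_num)]

theorem X_def_neg (u : ℕ) (q : ℝ) : (2 : ℝ) ^ (-(q * u)) = X u (-q) := by
  unfold X; rw [neg_mul]

/-- powers of `u` are smaller than every positive power of `N` -/
theorem poly (k : ℕ) {δ : ℝ} (hδ : 0 < δ) : ∃ C : ℝ, 1 ≤ C ∧ ∀ u : ℕ, (u : ℝ) ^ k ≤ C * X u δ := by
  have hr : |((2 : ℝ) ^ (-δ))| < 1 := by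
    rw [abs_of_pos (Real.rpow_pos_of_pos (by norm_num) _)]
    exact Real.rpow_lt_one_of_one_lt_of_neg (by norm_num) (by linarith)
  have ht := tendsto_pow_const_mul_const_pow_of_abs_lt_one k hr
  obtain ⟨B, hB⟩ := ht.bddAbove_range
  refine ⟨max B 1, le_max_right _ _, fun u => ?_⟩
  have h1 : (u : ℝ) ^ k * ((2 : ℝ) ^ (-δ)) ^ u ≤ B := hB ⟨u, rfl⟩
  have h2 : ((2 : ℝ) ^ (-δ)) ^ u * X u δ = 1 := by
    unfold X
    rw [← Real.rpow_natCast, ← Real.rpow_mul (by norm_num), ← Real.rpow_add (by norm_num)]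
    have : -δ * (u : ℝ) + δ * u = 0 := by ring
    rw [this, Real.rpow_zero]
  have h3 : (u : ℝ) ^ k = (u : ℝ) ^ k * ((2 : ℝ) ^ (-δ)) ^ u * X u δ := by
    rw [mul_assoc, h2, mul_one]
  rw [h3]
  exact mul_le_mul_of_nonneg_right (h1.trans (le_max_left _ _)) (X_pos u δ).le

/-- large enough powers -/
theorem poly_ev (k : ℕ) {δ : ℝ} (hδ : 0 < δ) (B : ℝ) :
    ∃ u₀ : ℕ, ∀ u : ℕ, u₀ ≤ u → B * (u : ℝ) ^ k ≤ X u δ := by
  obtain ⟨C, hC, h⟩ := poly k (δ := δ / 2) (by linarith)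
  -- `X u (δ/2)` tends to infinity
  have ht : Tendsto (fun u : ℕ => X u (δ / 2)) atTop atTop := by
    have h1 : 1 < (2 : ℝ) ^ (δ / 2) := Real.one_lt_rpow (by norm_num) (by linarith)
    have h2 := tendsto_pow_atTop_atTop_of_one_lt h1
    refine h2.congr fun u => ?_
    unfold X
    rw [← Real.rpow_natCast, ← Real.rpow_mul (by norm_num)]
  obtain ⟨u₀, hu₀⟩ := (tendsto_atTop_atTop.1 ht) (|B| * C)
  refine ⟨u₀, fun u hu => ?_⟩
  have h3 := hu₀ u hu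
  have h4 : X u δ = X u (δ / 2) * X u (δ / 2) := by rw [← X_add]; congr 1; ring
  calc B * (u : ℝ) ^ k ≤ |B| * (u : ℝ) ^ k :=
        mul_le_mul_of_nonneg_right (le_abs_self B) (by positivity)
    _ ≤ |B| * (C * X u (δ / 2)) := mul_le_mul_of_nonneg_left (h u) (abs_nonneg B)
    _ = (|B| * C) * X u (δ / 2) := by ring
    _ ≤ X u (δ / 2) * X u (δ / 2) := mul_le_mul_of_nonneg_right h3 (X_pos u _).le
    _ = X u δ := h4.symm

/-- the form of the final step -/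
theorem fin_step {q e P₀ : ℝ} (k : ℕ) (he : e < q) (hP : 0 ≤ P₀) : ∃ (C ε : ℝ), 0 < C ∧ 0 < ε ∧
    ∀ (u : ℕ) (L : ℝ), L ≤ P₀ * (u : ℝ) ^ k * X u e → L ≤ C * (2 : ℝ) ^ ((q - ε) * u) := by
  obtain ⟨C, hC, h⟩ := poly k (δ := (q - e) / 2) (by linarith)
  refine ⟨(P₀ + 1) * C, (q - e) / 2, by positivity, by linarith, fun u L hL => ?_⟩
  have h1 : X u e * X u ((q - e) / 2) = (2 : ℝ) ^ ((q - (q - e) / 2) * u) := by
    rw [← X_add]; unfold X; congr 1; ring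
  rw [← h1]
  calc L ≤ P₀ * (u : ℝ) ^ k * X u e := hL
    _ ≤ (P₀ + 1) * (C * X u ((q - e) / 2)) * X u e := by
        apply mul_le_mul_of_nonneg_right _ (X_pos u e).le
        exact mul_le_mul (by linarith) (h u) (by positivity) (by positivity)
    _ = (P₀ + 1) * C * (X u e * X u ((q - e) / 2)) := by ring

/-- `1/η ≤ u^10 m₁` -/
theorem inv_eta {u : ℕ} {η m₁ : ℝ} (hu : 1 ≤ u) (h : Nm u η m₁) : 1 / η ≤ (u : ℝ) ^ 10 * m₁ := by
  obtain ⟨h0, h1, h2, h3, h4⟩ := h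
  have hu' : (0 : ℝ) < (u : ℝ) ^ 10 := by have : (0 : ℝ) < u := by exact_mod_cast hu
                                          positivity
  rw [div_le_iff₀ hu'] at h2
  rw [div_le_iff₀ h0]
  linarith

theorem m_pos {u : ℕ} {η m₁ : ℝ} (hu : 1 ≤ u) (h : Nm u η m₁) : 0 < m₁ := by
  obtain ⟨h0, h1, h2, h3, h4⟩ := h
  have : (0 : ℝ) < u := by exact_mod_cast hu
  exact lt_of_lt_of_le (by positivity) h3

theorem m_inv {u : ℕ} {η m₁ : ℝ} (hu : 1 ≤ u) (h : Nm u η m₁) : 1 / m₁ ≤ (u : ℝ) ^ 3 := by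
  have hm := m_pos hu h
  obtain ⟨h0, h1, h2, h3, h4⟩ := h
  have hu' : (0 : ℝ) < (u : ℝ) ^ 3 := by have : (0 : ℝ) < u := by exact_mod_cast hu
                                         positivity
  rw [div_le_iff₀ hu'] at h3
  rw [div_le_iff₀ hm]
  linarith

theorem m_le {u : ℕ} {η m₁ : ℝ} (h : Nm u η m₁) : m₁ ≤ X u 1 := by
  rw [X_one]; exact h.2.2.2.2

theorem inv_m_eta {u : ℕ} {η m₁ : ℝ} (hu : 1 ≤ u) (h : Nm u η m₁) :
    1 / (m₁ * η) ≤ (u : ℝ) ^ 10 := by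
  have hm := m_pos hu h
  obtain ⟨h0, h1, h2, h3, h4⟩ := h
  have hu' : (0 : ℝ) < (u : ℝ) ^ 10 := by have : (0 : ℝ) < u := by exact_mod_cast hu
                                          positivity
  rw [div_le_iff₀ hu'] at h2
  rw [div_le_iff₀ (by positivity)]
  linarith

/-- `2^b = N^(b/u)` -/
theorem two_pow_b {u : ℕ} (hu : 1 ≤ u) (b : ℕ) : (2 : ℝ) ^ b = X u ((b : ℝ) / u) := by
  have : (u : ℝ) ≠ 0 := by
    have : (0 : ℝ) < u := by exact_mod_cast hu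
    exact this.ne'
  unfold X
  rw [div_mul_cancel₀ _ this, Real.rpow_natCast]

/-- the number of slopes -/
theorem ns_le_aux {u b : ℕ} {A σ t : ℝ} (hu : 1 ≤ u) (hA : 0 ≤ A) (hσ : 0 < σ)
    (ht : (2 : ℝ) ^ b ≤ t) :
    1 + (2 : ℝ) ^ u * (A * t ^ (-(1 / σ))) ≤ (1 + A) * X u (max 0 (1 - (b : ℝ) / u / σ)) := by
  have h1 : t ^ (-(1 / σ)) ≤ X u (-((b : ℝ) / u / σ)) := by
    have h2 : t ^ (-(1 / σ)) ≤ ((2 : ℝ) ^ b) ^ (-(1 / σ)) := by
      apply Real.rpow_le_rpow_of_nonpos (by positivity) ht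
      have : 0 < 1 / σ := by positivity
      linarith
    refine h2.trans (le_of_eq ?_)
    rw [two_pow_b hu b]
    unfold X
    rw [← Real.rpow_mul (by norm_num)]
    congr 1
    field_simp
  have h3 : (2 : ℝ) ^ u * (A * t ^ (-(1 / σ))) ≤ A * X u (1 - (b : ℝ) / u / σ) := by
    rw [sub_eq_add_neg, X_add, X_one]
    calc (2 : ℝ) ^ u * (A * t ^ (-(1 / σ))) = A * ((2 : ℝ) ^ u * t ^ (-(1 / σ))) := by ring
      _ ≤ A * ((2 : ℝ) ^ u * X u (-((b : ℝ) / u / σ))) := by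
          apply mul_le_mul_of_nonneg_left _ hA
          exact mul_le_mul_of_nonneg_left h1 (by positivity)
  have h4 : 1 ≤ X u (max 0 (1 - (b : ℝ) / u / σ)) := one_le_X u (le_max_left _ _)
  have h5 : X u (1 - (b : ℝ) / u / σ) ≤ X u (max 0 (1 - (b : ℝ) / u / σ)) :=
    X_mono u (le_max_right _ _)
  nlinarith [mul_le_mul_of_nonneg_left h5 hA]

theorem ns_le {u b : ℕ} {A σ : ℝ} (hu : 1 ≤ u) (hA : 0 ≤ A) (hσ : 0 < σ) :
    ns u b A σ ≤ (1 + A) * X u (max 0 (1 - (b : ℝ) / u / σ)) := by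
  unfold ns
  apply ns_le_aux hu hA hσ
  have h1 : (1 : ℝ) ≤ u := by exact_mod_cast hu
  have h2 : (2 : ℝ) ^ b ≤ 2 ^ (b + 1) := pow_le_pow_right₀ (by norm_num) (by omega)
  have h3 : (0 : ℝ) < 2 ^ (b + 1) := by positivity
  nlinarith

theorem ns_le' {u b : ℕ} {A σ : ℝ} (hu : 1 ≤ u) (hb : 1 ≤ b) (hA : 0 ≤ A) (hσ : 0 < σ) :
    ns u (b - 1) A σ ≤ (1 + A) * X u (max 0 (1 - (b : ℝ) / u / σ)) := by
  unfold ns
  apply ns_le_aux hu hA hσ
  have h0 : b - 1 + 1 = b := by omega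
  rw [h0]
  have h1 : (1 : ℝ) ≤ u := by exact_mod_cast hu
  have h3 : (0 : ℝ) < 2 ^ b := by positivity
  nlinarith

theorem one_le_ns {u b : ℕ} {A σ : ℝ} (hA : 0 ≤ A) : 1 ≤ ns u b A σ := by
  unfold ns
  have : 0 ≤ (2 : ℝ) ^ u * (A * ((2 : ℝ) ^ (b + 1) * u) ^ (-(1 / σ))) := by positivity
  linarith

/-- the square root -/
theorem sqrt_le {u : ℕ} {q η m₁ : ℝ} (hu : 1 ≤ u) (h : Nm u η m₁) :
    Real.sqrt (8 * (2 : ℝ) ^ (-(q * u)) / (η / 2) ^ 3) ≤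
      8 * (u : ℝ) ^ 15 * Real.sqrt (X u (-q) * m₁ ^ 3) := by
  have hm := m_pos hu h
  have hi := inv_eta hu h
  have h0 := h.1
  have h1 : 8 * (2 : ℝ) ^ (-(q * u)) / (η / 2) ^ 3 ≤
      (8 * (u : ℝ) ^ 15) ^ 2 * (X u (-q) * m₁ ^ 3) := by
    rw [X_def_neg]
    have e1 : 8 * X u (-q) / (η / 2) ^ 3 = 64 * X u (-q) * (1 / η) ^ 3 := by
      field_simp
      ring
    rw [e1]
    have h2 : (1 / η) ^ 3 ≤ ((u : ℝ) ^ 10 * m₁) ^ 3 := pow_le_pow_left₀ (by positivity) hi 3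
    have h3 := X_pos u (-q)
    calc 64 * X u (-q) * (1 / η) ^ 3 ≤ 64 * X u (-q) * ((u : ℝ) ^ 10 * m₁) ^ 3 :=
          mul_le_mul_of_nonneg_left h2 (by positivity)
      _ = (8 * (u : ℝ) ^ 15) ^ 2 * (X u (-q) * m₁ ^ 3) := by ring
  calc Real.sqrt (8 * (2 : ℝ) ^ (-(q * u)) / (η / 2) ^ 3)
      ≤ Real.sqrt ((8 * (u : ℝ) ^ 15) ^ 2 * (X u (-q) * m₁ ^ 3)) := Real.sqrt_le_sqrt h1
    _ = 8 * (u : ℝ) ^ 15 * Real.sqrt (X u (-q) * m₁ ^ 3) := by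
        rw [Real.sqrt_mul (by positivity), Real.sqrt_sq (by positivity)]

/-- bound of `M0` -/
theorem M0_le {u b : ℕ} {A σ q κ η m₁ nh : ℝ} (hu : 1 ≤ u) (h : Nm u η m₁) (hκ : 0 ≤ κ)
    (hA : 0 ≤ A) (hn : ns u b A σ ≤ nh) :
    M0 κ u b A σ (8 * (2 : ℝ) ^ (-(q * u))) (η / 2) ≤
      κ * nh * (1 + 8 * (u : ℝ) ^ 16 * Real.sqrt (X u (-q) * m₁ ^ 3)) := by
  unfold M0
  have h1 := one_le_ns (u := u) (b := b) (σ := σ) hA
  have h2 := sqrt_le (q := q) hu h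
  have h3 : (u : ℝ) * Real.sqrt (8 * (2 : ℝ) ^ (-(q * u)) / (η / 2) ^ 3) ≤
      8 * (u : ℝ) ^ 16 * Real.sqrt (X u (-q) * m₁ ^ 3) := by
    calc (u : ℝ) * Real.sqrt (8 * (2 : ℝ) ^ (-(q * u)) / (η / 2) ^ 3)
        ≤ (u : ℝ) * (8 * (u : ℝ) ^ 15 * Real.sqrt (X u (-q) * m₁ ^ 3)) :=
          mul_le_mul_of_nonneg_left h2 (by positivity)
      _ = _ := by ring
  apply mul_le_mul
  · exact mul_le_mul_of_nonneg_left hn hκ
  · linarith
  · positivity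
  · have : 0 ≤ nh := by linarith
    positivity

theorem one_le_M0 {u b : ℕ} {A σ D θ κ : ℝ} (hκ : 1 ≤ κ) (hA : 0 ≤ A) :
    1 ≤ M0 κ u b A σ D θ := by
  unfold M0
  have h1 := one_le_ns (u := u) (b := b) (σ := σ) hA
  have h2 : 0 ≤ (u : ℝ) * Real.sqrt (D / θ ^ 3) := by positivity
  have h3 : 1 ≤ κ * ns u b A σ := one_le_mul_of_one_le_of_one_le hκ h1
  exact one_le_mul_of_one_le_of_one_le h3 (by linarith)

/-- the minimum -/
theorem W_le {u b K : ℕ} {σ Cf : ℝ} (hu : 1 ≤ u) (hCf : 1 ≤ Cf)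
    (hK : (K : ℝ) ≤ Cf * (2 : ℝ) ^ (σ * u)) :
    min (10 ^ 6 * (u : ℝ) ^ 5 * 2 ^ b) (K : ℝ) ≤
      10 ^ 6 * Cf * (u : ℝ) ^ 5 * X u (min ((b : ℝ) / u) σ) := by
  have h1 : (1 : ℝ) ≤ u := by exact_mod_cast hu
  have h5 : (1 : ℝ) ≤ (u : ℝ) ^ 5 := one_le_pow₀ h1
  rcases le_total ((b : ℝ) / u) σ with h | h
  · rw [min_eq_left h, two_pow_b hu b]
    refine (min_le_left _ _).trans ?_
    have := X_pos u ((b : ℝ) / u)
    have h6 : (u : ℝ) ^ 5 * X u ((b : ℝ) / u) ≤ Cf * ((u : ℝ) ^ 5 * X u ((b : ℝ) / u)) :=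
      le_mul_of_one_le_left (by positivity) hCf
    nlinarith
  · rw [min_eq_right h]
    refine (min_le_right _ _).trans (hK.trans ?_)
    change Cf * X u σ ≤ _
    have := X_pos u σ
    have h6 : Cf * X u σ ≤ (u : ℝ) ^ 5 * (Cf * X u σ) := le_mul_of_one_le_left (by positivity) h5
    have h7 : 0 < Cf * X u σ := by positivity
    nlinarith

end Pool.Agent.Helper65.RL
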