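import Pool.Agent.Helper20.RL.St4
import Pool.Agent.Helper65.RL.LNX

/-!
# Project RL, modules PNA and PNB
-/

set_option autoImplicit false

open MeasureTheory Set Filter Topology

namespace Pool.Agent.Helper65.RL

open Pool.Agent.Helper20.RG Pool.Agent.Helper20.RL

theorem hPNA : StPNA := by
  intro q γ hγ
  obtain ⟨C, ε, hC, hε, h⟩ := fin_step (q := q) (e := γ + 1) (P₀ := 70 * 10 ^ 6) 15
    (by linarith) (by norm_num)
  refine ⟨C, ε, hC, hε, fun u b η m₁ hu hN hb => h u _ ?_⟩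
  have h1 := inv_m_eta hu hN
  have hu' : (0 : ℝ) < u := by exact_mod_cast hu
  have h2 : (2 : ℝ) ^ b ≤ X u γ := by
    rw [two_pow_b hu b]
    apply X_mono
    rw [div_le_iff₀ hu']
    exact hb
  rw [← X_one u, X_add]
  have h4 : 70 / (m₁ * η) = 70 * (1 / (m₁ * η)) := by ring
  rw [h4]
  have hm := m_pos hu hN
  have h0 := hN.1
  calc 70 * (1 / (m₁ * η)) * (10 ^ 6 * (u : ℝ) ^ 5 * 2 ^ b) * X u 1
      ≤ 70 * (u : ℝ) ^ 10 * (10 ^ 6 * (u : ℝ) ^ 5 * X u γ) * X u 1 := by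
        have := X_pos u 1
        have := X_pos u γ
        gcongr
    _ = 70 * 10 ^ 6 * (u : ℝ) ^ 15 * (X u γ * X u 1) := by ring

theorem hPNB : StPNB := by
  intro q hq1 hq2
  obtain ⟨u₂, hu₂⟩ := poly_ev 10 (δ := q - 1) (by linarith) (12800 * 10752 * 8)
  refine ⟨u₂, fun u η m₁ hu3 hu1 hN => ?_⟩
  have hm := m_pos hu1 hN
  have hinv := inv_eta hu1 hN
  have hml := m_le hN
  have h0 := hN.1
  have h1 := hu₂ u hu3
  have hu0 : (0 : ℝ) ≤ (u : ℝ) ^ 10 := by positivity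
  refine ⟨?_, ?_, ?_⟩
  · rw [X_def_neg]
    have h2 : 1 / η * 16000 ≤ X u q := by
      calc 1 / η * 16000 ≤ ((u : ℝ) ^ 10 * m₁) * 16000 := by gcongr
        _ ≤ ((u : ℝ) ^ 10 * X u 1) * 16000 := by gcongr
        _ = 16000 * (u : ℝ) ^ 10 * X u 1 := by ring
        _ ≤ X u (q - 1) * X u 1 := by
            apply mul_le_mul_of_nonneg_right _ (X_pos u 1).le
            linarith
        _ = X u q := by rw [← X_add]; congr 1; ring
    rw [X_neg]
    have h3 := X_pos u q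
    have h4 : 16000 ≤ X u q * η := by
      rw [div_mul_eq_mul_div, one_mul, div_le_iff₀ h0] at h2
      exact h2
    have h5 : 2000 * (8 * (X u q)⁻¹) = 16000 / X u q := by field_simp; norm_num
    rw [h5, div_le_iff₀ h3]
    linarith
  · rw [X_def_neg]
    have h1 : (2 : ℝ) ^ (-(6 * (u : ℤ))) = X u (-6) := by
      unfold X
      rw [← Real.rpow_intCast]
      congr 1
      push_cast
      ring
    rw [h1]
    have h2 : X u (-6) ≤ X u (-q) := X_mono u (by linarith)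
    have h3 := X_pos u (-q)
    linarith
  · rw [X_def_neg, ← X_one]
    have e1 : 12800 * (10752 * X u 1 * (8 * X u (-q)) / η) =
        12800 * 10752 * 8 * (X u 1 * X u (-q)) * (1 / η) := by ring
    have e2 : X u 1 * X u (-q) = X u (-(q - 1)) := by rw [← X_add]; congr 1; ring
    rw [e1, e2]
    have h6 : (12800 * 10752 * 8) * (u : ℝ) ^ 10 * X u (-(q - 1)) ≤ 1 := by
      calc (12800 * 10752 * 8) * (u : ℝ) ^ 10 * X u (-(q - 1))
          ≤ X u (q - 1) * X u (-(q - 1)) := mul_le_mul_of_nonneg_right h1 (X_pos u _).le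
        _ = 1 := by rw [← X_add, add_neg_cancel, X_zero]
    have h7 := X_pos u (-(q - 1))
    calc 12800 * 10752 * 8 * X u (-(q - 1)) * (1 / η)
        ≤ 12800 * 10752 * 8 * X u (-(q - 1)) * ((u : ℝ) ^ 10 * m₁) := by gcongr
      _ = ((12800 * 10752 * 8) * (u : ℝ) ^ 10 * X u (-(q - 1))) * m₁ := by ring
      _ ≤ 1 * m₁ := mul_le_mul_of_nonneg_right h6 hm.le
      _ = m₁ := one_mul _

end Pool.Agent.Helper65.RL
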