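import Pool.Agent.Helper65.RL.M_PNW

/-!
# Project RL, module PNC: few directions
-/

set_option autoImplicit false

open MeasureTheory Set Filter Topology

namespace Pool.Agent.Helper65.RL

open Pool.Agent.Helper20.RG Pool.Agent.Helper20.RL

/-- the square root in `M1` -/
theorem sqrt_M1 (u : ℕ) {q n₁ : ℝ} (hn : 0 ≤ n₁) :
    Real.sqrt (n₁ * (2 ^ u * (8 * (2 : ℝ) ^ (-(q * u))))) ≤
      3 * Real.sqrt n₁ * X u ((1 - q) / 2) := by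
  have e1 : (2 : ℝ) ^ u * (8 * (2 : ℝ) ^ (-(q * u))) = 8 * X u ((1 - q) / 2) ^ 2 := by
    rw [X_def_neg, ← X_one]
    have : X u ((1 - q) / 2) ^ 2 = X u 1 * X u (-q) := by
      rw [sq, ← X_add, ← X_add]; congr 1; ring
    rw [this]; ring
  rw [e1]
  have h1 := X_pos u ((1 - q) / 2)
  have h2 : n₁ * (8 * X u ((1 - q) / 2) ^ 2) ≤ (3 * Real.sqrt n₁ * X u ((1 - q) / 2)) ^ 2 := by
    have h3 : Real.sqrt n₁ ^ 2 = n₁ := Real.sq_sqrt hn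
    have e2 : (3 * Real.sqrt n₁ * X u ((1 - q) / 2)) ^ 2 =
        9 * Real.sqrt n₁ ^ 2 * X u ((1 - q) / 2) ^ 2 := by ring
    rw [e2, h3]
    have h4 : 0 ≤ n₁ * X u ((1 - q) / 2) ^ 2 := by positivity
    linarith
  calc Real.sqrt (n₁ * (8 * X u ((1 - q) / 2) ^ 2))
      ≤ Real.sqrt ((3 * Real.sqrt n₁ * X u ((1 - q) / 2)) ^ 2) := Real.sqrt_le_sqrt h2
    _ = _ := Real.sqrt_sq (by positivity)

theorem M1_le {u b : ℕ} {A σ q κ η : ℝ} (hκ : 0 ≤ κ) (hA : 0 ≤ A) (hη : 0 < η) :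
    M1 κ u b A σ (8 * (2 : ℝ) ^ (-(q * u))) (η / 2) ≤
      κ * (ns u b A σ + 16 * X u (1 - q) * (1 / η) +
        6 * (u : ℝ) * Real.sqrt (ns u b A σ) * X u ((1 - q) / 2) * (1 / η)) := by
  have h1 := one_le_ns (u := u) (b := b) (σ := σ) hA
  unfold M1
  apply mul_le_mul_of_nonneg_left _ hκ
  have e1 : 2 ^ u * (8 * (2 : ℝ) ^ (-(q * u))) / (η / 2) = 16 * X u (1 - q) * (1 / η) := by
    rw [X_def_neg, ← X_one, show (1 - q) = 1 + -q by ring, X_add]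
    field_simp
    ring
  have h2 := sqrt_M1 u (q := q) (by linarith : 0 ≤ ns u b A σ)
  have e2 : (u : ℝ) * Real.sqrt (ns u b A σ * (2 ^ u * (8 * (2 : ℝ) ^ (-(q * u))))) / (η / 2) =
      (u : ℝ) * 2 * (1 / η) * Real.sqrt (ns u b A σ * (2 ^ u * (8 * (2 : ℝ) ^ (-(q * u))))) := by
    field_simp
  rw [e1, e2]
  have h3 : (u : ℝ) * 2 * (1 / η) * Real.sqrt (ns u b A σ * (2 ^ u * (8 * (2 : ℝ) ^ (-(q * u))))) ≤
      (u : ℝ) * 2 * (1 / η) * (3 * Real.sqrt (ns u b A σ) * X u ((1 - q) / 2)) := by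
    apply mul_le_mul_of_nonneg_left h2
    positivity
  have h4 : (u : ℝ) * 2 * (1 / η) * (3 * Real.sqrt (ns u b A σ) * X u ((1 - q) / 2)) =
      6 * (u : ℝ) * Real.sqrt (ns u b A σ) * X u ((1 - q) / 2) * (1 / η) := by ring
  linarith

theorem M1_nonneg {u b : ℕ} {A σ D θ κ : ℝ} (hκ : 0 ≤ κ) (hA : 0 ≤ A) (hD : 0 ≤ D)
    (hθ : 0 ≤ θ) : 0 ≤ M1 κ u b A σ D θ := by
  have h1 := one_le_ns (u := u) (b := b) (σ := σ) hA
  unfold M1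
  have h2 : 0 ≤ ns u b A σ := by linarith
  positivity

theorem hPNC (hPNW : StPNW) : StPNC := by
  intro A σ q γ κ Cf hA hEx hκ hCf
  obtain ⟨C₀, ε₀, hC₀, hε₀, hW⟩ := hPNW A σ q γ Cf hA hEx hCf
  obtain ⟨hσ1, hσq, hq2, hγ0, hγq, hex⟩ := hEx
  set P₀ : ℝ := 70 * (4 * (κ * 30000)) * C₀ with hP₀
  have hP₀0 : 0 ≤ P₀ := by positivity
  obtain ⟨C, ε, hC, hε, h⟩ := fin_step (q := q) (e := q - ε₀) (P₀ := P₀) 21 (by linarith) hP₀0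
  refine ⟨C, ε, hC, hε, fun u b K η m₁ hu hN hb hK hcase => h u _ ?_⟩
  have hu' : (1 : ℝ) ≤ u := by exact_mod_cast hu
  have hm := m_pos hu hN
  have h0 := hN.1
  have hinv := inv_eta hu hN
  have hi := inv_m_eta hu hN
  have hWb := hW u b K hu hb hK
  set n₁ := ns u b A σ with hn₁
  have hn1 : 1 ≤ n₁ := one_le_ns hA
  set W := min (10 ^ 6 * (u : ℝ) ^ 5 * 2 ^ b) (K : ℝ) with hWdef
  have hW0 : 0 ≤ W := le_min (by positivity) (by positivity)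
  have hmP : m₁ ≤ 1000 * n₁ := by
    rcases hcase with h1 | h1 <;> linarith
  have hinv' : 1 / η ≤ (u : ℝ) ^ 10 * (1000 * n₁) := hinv.trans (by gcongr)
  have hX1 : X u (1 - q) ≤ 1 := (X_mono u (by linarith : 1 - q ≤ 0)).trans (X_zero u).le
  have hX10 := X_pos u (1 - q)
  set Y := X u ((1 - q) / 2) with hY
  have hY0 : 0 < Y := X_pos u _
  have h32 : n₁ ^ (3 / 2 : ℝ) = n₁ * Real.sqrt n₁ := rpow_three_half (by linarith)
  have hu10 : (1 : ℝ) ≤ (u : ℝ) ^ 10 := one_le_pow₀ hu'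
  have hM : M1 κ u b A σ (8 * (2 : ℝ) ^ (-(q * u))) (η / 2) ≤
      κ * 30000 * (u : ℝ) ^ 11 * (n₁ + n₁ ^ (3 / 2 : ℝ) * Y) := by
    refine (M1_le (by linarith) hA h0).trans ?_
    rw [← hn₁, ← hY, h32]
    have hs := Real.sqrt_nonneg n₁
    have h1 : n₁ ≤ (u : ℝ) ^ 11 * n₁ := le_mul_of_one_le_left (by linarith) (one_le_pow₀ hu')
    have h2 : 16 * X u (1 - q) * (1 / η) ≤ 16000 * (u : ℝ) ^ 11 * n₁ := by
      calc 16 * X u (1 - q) * (1 / η) ≤ 16 * 1 * ((u : ℝ) ^ 10 * (1000 * n₁)) := by gcongr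
        _ = 16000 * ((u : ℝ) ^ 10 * n₁) := by ring
        _ ≤ 16000 * ((u : ℝ) ^ 11 * n₁) := by
            have : (u : ℝ) ^ 10 ≤ (u : ℝ) ^ 11 := pow_le_pow_right₀ hu' (by norm_num)
            gcongr
        _ = _ := by ring
    have h3 : 6 * (u : ℝ) * Real.sqrt n₁ * Y * (1 / η) ≤
        6000 * (u : ℝ) ^ 11 * (n₁ * Real.sqrt n₁ * Y) := by
      calc 6 * (u : ℝ) * Real.sqrt n₁ * Y * (1 / η)
          ≤ 6 * (u : ℝ) * Real.sqrt n₁ * Y * ((u : ℝ) ^ 10 * (1000 * n₁)) := by gcongr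
        _ = _ := by ring
    have h4 : 0 ≤ (u : ℝ) ^ 11 * (n₁ * Real.sqrt n₁ * Y) := by positivity
    have h5 : 0 ≤ (u : ℝ) ^ 11 * n₁ := by positivity
    have h6 : n₁ + 16 * X u (1 - q) * (1 / η) + 6 * (u : ℝ) * Real.sqrt n₁ * Y * (1 / η) ≤
        30000 * (u : ℝ) ^ 11 * (n₁ + n₁ * Real.sqrt n₁ * Y) := by nlinarith
    calc κ * (n₁ + 16 * X u (1 - q) * (1 / η) + 6 * (u : ℝ) * Real.sqrt n₁ * Y * (1 / η))
        ≤ κ * (30000 * (u : ℝ) ^ 11 * (n₁ + n₁ * Real.sqrt n₁ * Y)) :=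
          mul_le_mul_of_nonneg_left h6 (by linarith)
      _ = _ := by ring
  have hM0 : 0 ≤ M1 κ u b A σ (8 * (2 : ℝ) ^ (-(q * u))) (η / 2) :=
    M1_nonneg (by linarith) hA (by positivity) (by linarith)
  have e1 : 70 / (m₁ * η) = 70 * (1 / (m₁ * η)) := by ring
  rw [e1]
  have hYe : (2 : ℝ) ^ ((1 - q) / 2 * u) = Y := rfl
  rw [hYe] at hWb
  calc 70 * (1 / (m₁ * η)) * W * (4 * M1 κ u b A σ (8 * (2 : ℝ) ^ (-(q * u))) (η / 2))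
      ≤ 70 * (u : ℝ) ^ 10 * W *
        (4 * (κ * 30000 * (u : ℝ) ^ 11 * (n₁ + n₁ ^ (3 / 2 : ℝ) * Y))) := by gcongr
    _ = 70 * (4 * (κ * 30000)) * (u : ℝ) ^ 21 * (W * (n₁ + n₁ ^ (3 / 2 : ℝ) * Y)) := by ring
    _ ≤ 70 * (4 * (κ * 30000)) * (u : ℝ) ^ 21 * (C₀ * (2 : ℝ) ^ ((q - ε₀) * u)) := by gcongr
    _ = P₀ * (u : ℝ) ^ 21 * X u (q - ε₀) := by rw [hP₀]; unfold X; ring

end Pool.Agent.Helper65.RL
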