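import Pool.Agent.Helper65.RL.M_PNC

/-!
# Project RL, module PND: many directions
-/

set_option autoImplicit false

open MeasureTheory Set Filter Topology

namespace Pool.Agent.Helper65.RL

open Pool.Agent.Helper20.RG Pool.Agent.Helper20.RL

theorem hPND (hPNW : StPNW) : StPND := by
  intro A σ q γ κ C₄ Cf hA hEx hκ hC₄ hCf
  obtain ⟨C₀, ε₀, hC₀, hε₀, hW⟩ := hPNW A σ q γ Cf hA hEx hCf
  obtain ⟨hσ1, hσq, hq2, hγ0, hγq, hex⟩ := hEx
  have hσ0 : 0 < σ := by linarith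
  set P₁ : ℝ := 42 * (10 ^ 6 * Cf) * (4 * (κ * (23 * (1 + A)))) with hP₁
  set P₂ : ℝ := C₄ * 168 * 86016 * (κ * 23) * C₀ with hP₂
  have hP₁0 : 0 ≤ P₁ := by positivity
  have hP₂0 : 0 ≤ P₂ := by positivity
  set e₀ : ℝ := max (q - ε₀) 0 with he₀
  have he : e₀ < q := max_lt (by linarith) (by linarith)
  obtain ⟨C, ε, hC, hε, h⟩ := fin_step (q := q) (e := e₀) (P₀ := P₁ + P₂) 32 he (by positivity)
  refine ⟨C, ε, hC, hε, fun u b K η m₁ hu hN hb hK hm1000 hm200 => h u _ ?_⟩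
  have hu' : (1 : ℝ) ≤ u := by exact_mod_cast hu
  have hm := m_pos hu hN
  have h0 := hN.1
  have hinv := inv_eta hu hN
  have hi := inv_m_eta hu hN
  have hml := m_le hN
  have hWb := hW u b K hu hb hK
  have hnsle := ns_le (u := u) (b := b) (A := A) (σ := σ) hu hA hσ0
  set n₁ := ns u b A σ with hn₁
  have hn1 : 1 ≤ n₁ := one_le_ns hA
  set W := min (10 ^ 6 * (u : ℝ) ^ 5 * 2 ^ b) (K : ℝ) with hWdef
  have hW0 : 0 ≤ W := le_min (by positivity) (by positivity)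
  have hX1 : X u (1 - q) ≤ 1 := (X_mono u (by linarith : 1 - q ≤ 0)).trans (X_zero u).le
  have hX10 := X_pos u (1 - q)
  set Y := X u ((1 - q) / 2) with hY
  have hY0 : 0 < Y := X_pos u _
  have hY1 : Y ≤ 1 := (X_mono u (by linarith : (1 - q) / 2 ≤ 0)).trans (X_zero u).le
  have h32 : n₁ ^ (3 / 2 : ℝ) = n₁ * Real.sqrt n₁ := rpow_three_half (by linarith)
  have hs := Real.sqrt_nonneg n₁
  have hYe : (2 : ℝ) ^ ((1 - q) / 2 * u) = Y := rfl
  rw [hYe] at hWb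
  have hM0 : 0 ≤ M1 κ u b A σ (8 * (2 : ℝ) ^ (-(q * u))) (η / 2) :=
    M1_nonneg (by linarith) hA (by positivity) (by linarith)
  have hM := M1_le (u := u) (b := b) (A := A) (σ := σ) (q := q) (κ := κ) (η := η) (by linarith) hA h0
  rw [← hn₁, ← hY] at hM
  set M := M1 κ u b A σ (8 * (2 : ℝ) ^ (-(q * u))) (η / 2) with hMdef
  have hT : 10752 * 2 ^ u * (8 * (2 : ℝ) ^ (-(q * u))) / η = 86016 * X u (1 - q) / η := by
    rw [X_def_neg, ← X_one, show (1 - q) = 1 + -q by ring, X_add]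
    ring
  rw [hT]
  have hu11 : (1 : ℝ) ≤ (u : ℝ) ^ 11 := one_le_pow₀ hu'
  -- first term
  have hT1 : (1 / 2) ^ (16 * u) / (86016 * X u (1 - q) / η) * (42 / η) * W * (4 * M) ≤
      P₁ * (u : ℝ) ^ 32 * X u e₀ := by
    have h1 : ((1 : ℝ) / 2) ^ (16 * u) = X u (-16) := by
      unfold X
      rw [one_div, inv_pow, ← Real.rpow_natCast, ← Real.rpow_neg (by norm_num)]
      congr 1
      push_cast
      ring
    have h2 : (1 / 2) ^ (16 * u) / (86016 * X u (1 - q) / η) * (42 / η) ≤ 42 * X u (-16 + (q - 1)) := by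
      rw [h1]
      have e1 : X u (-16) / (86016 * X u (1 - q) / η) * (42 / η) =
          42 / 86016 * (X u (-16) / X u (1 - q)) := by field_simp
      have e2 : X u (-16) / X u (1 - q) = X u (-16 + (q - 1)) := by
        rw [div_eq_iff hX10.ne', ← X_add]; congr 1; ring
      rw [e1, e2]
      have := X_pos u (-16 + (q - 1))
      nlinarith
    have h3 : W ≤ 10 ^ 6 * Cf * (u : ℝ) ^ 5 * X u 2 := by
      refine (W_le (u := u) (b := b) (K := K) (σ := σ) (Cf := Cf) hu hCf hK).trans ?_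
      have : X u (min ((b : ℝ) / u) σ) ≤ X u 2 := X_mono u ((min_le_right _ _).trans (by linarith))
      gcongr
    have hn1X : n₁ ≤ (1 + A) * X u 1 := by
      refine hnsle.trans ?_
      have : X u (max 0 (1 - (b : ℝ) / u / σ)) ≤ X u 1 := by
        apply X_mono
        have : 0 ≤ (b : ℝ) / u / σ := by positivity
        exact max_le (by norm_num) (by linarith)
      exact mul_le_mul_of_nonneg_left this (by linarith)
    have hsn : Real.sqrt n₁ ≤ n₁ := by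
      rw [Real.sqrt_le_left (by linarith)]
      nlinarith
    have hXone : 1 ≤ X u 1 := one_le_X u (by norm_num)
    have h4 : M ≤ κ * (23 * (1 + A)) * (u : ℝ) ^ 11 * X u 2 := by
      refine hM.trans ?_
      have e2 : X u 2 = X u 1 * X u 1 := by rw [← X_add]; norm_num
      have h5 : n₁ ≤ (1 + A) * (u : ℝ) ^ 11 * X u 2 := by
        rw [e2]
        calc n₁ ≤ (1 + A) * X u 1 := hn1X
          _ = (1 + A) * 1 * (1 * X u 1) := by ring
          _ ≤ (1 + A) * (u : ℝ) ^ 11 * (X u 1 * X u 1) := by gcongr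
      have h6 : 16 * X u (1 - q) * (1 / η) ≤ 16 * (1 + A) * (u : ℝ) ^ 11 * X u 2 := by
        have : 1 / η ≤ (u : ℝ) ^ 10 * X u 1 := hinv.trans (by gcongr)
        rw [e2]
        calc 16 * X u (1 - q) * (1 / η) ≤ 16 * 1 * ((u : ℝ) ^ 10 * X u 1) := by gcongr
          _ = 16 * 1 * (u : ℝ) ^ 10 * (1 * X u 1) := by ring
          _ ≤ 16 * (1 + A) * (u : ℝ) ^ 11 * (X u 1 * X u 1) := by
              have h7 : (u : ℝ) ^ 10 ≤ (u : ℝ) ^ 11 := pow_le_pow_right₀ hu' (by norm_num)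
              have h8 : (1 : ℝ) ≤ 1 + A := by linarith
              gcongr
      have h7 : 6 * (u : ℝ) * Real.sqrt n₁ * Y * (1 / η) ≤ 6 * (1 + A) * (u : ℝ) ^ 11 * X u 2 := by
        have h8 : 1 / η ≤ (u : ℝ) ^ 10 * X u 1 := hinv.trans (by gcongr)
        rw [e2]
        calc 6 * (u : ℝ) * Real.sqrt n₁ * Y * (1 / η)
            ≤ 6 * (u : ℝ) * ((1 + A) * X u 1) * 1 * ((u : ℝ) ^ 10 * X u 1) := by
              have h9 : Real.sqrt n₁ ≤ (1 + A) * X u 1 := hsn.trans hn1X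
              gcongr
          _ = 6 * (1 + A) * (u : ℝ) ^ 11 * (X u 1 * X u 1) := by ring
      have hx2 := X_pos u 2
      calc κ * (n₁ + 16 * X u (1 - q) * (1 / η) + 6 * (u : ℝ) * Real.sqrt n₁ * Y * (1 / η))
          ≤ κ * (23 * (1 + A) * (u : ℝ) ^ 11 * X u 2) := by
            apply mul_le_mul_of_nonneg_left _ (by linarith)
            linarith
        _ = _ := by ring
    have hXa := X_pos u (-16 + (q - 1))
    have hXb := X_pos u 2
    have h16 : (u : ℝ) ^ 16 ≤ (u : ℝ) ^ 32 := pow_le_pow_right₀ hu' (by norm_num)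
    have hXe : X u (-16 + (q - 1) + 2 + 2) ≤ X u e₀ :=
      X_mono u (le_trans (by linarith) (le_max_right _ _))
    have hXe0 := X_pos u (-16 + (q - 1) + 2 + 2)
    have e5 : X u (-16 + (q - 1) + 2 + 2) = X u (-16 + (q - 1)) * X u 2 * X u 2 := by
      rw [← X_add, ← X_add]
    calc (1 / 2) ^ (16 * u) / (86016 * X u (1 - q) / η) * (42 / η) * W * (4 * M)
        ≤ 42 * X u (-16 + (q - 1)) * (10 ^ 6 * Cf * (u : ℝ) ^ 5 * X u 2) *
          (4 * (κ * (23 * (1 + A)) * (u : ℝ) ^ 11 * X u 2)) := by gcongr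
      _ = P₁ * (u : ℝ) ^ 16 * X u (-16 + (q - 1) + 2 + 2) := by
          rw [e5, hP₁]
          generalize X u (-16 + (q - 1)) = z
          ring
      _ ≤ P₁ * (u : ℝ) ^ 32 * X u e₀ := by gcongr
  -- second term
  have hT2 : u * C₄ * n₁ * (86016 * X u (1 - q) / η) / m₁ ^ 3 * (42 / η) * W * (4 * M) ≤
      P₂ * (u : ℝ) ^ 32 * X u e₀ := by
    have h1 : n₁ / m₁ * M ≤ κ * 23 * (u : ℝ) ^ 11 * (n₁ + n₁ ^ (3 / 2 : ℝ) * Y) := by
      have h2 : n₁ / m₁ * M ≤ n₁ / m₁ * (κ * (n₁ + 16 * X u (1 - q) * (1 / η) +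
          6 * (u : ℝ) * Real.sqrt n₁ * Y * (1 / η))) :=
        mul_le_mul_of_nonneg_left hM (by positivity)
      refine h2.trans ?_
      rw [h32]
      have e1 : n₁ / m₁ * (κ * (n₁ + 16 * X u (1 - q) * (1 / η) +
          6 * (u : ℝ) * Real.sqrt n₁ * Y * (1 / η))) =
          κ * (n₁ * (n₁ / m₁) + 16 * n₁ * X u (1 - q) * (1 / (m₁ * η)) +
            6 * (u : ℝ) * (n₁ * Real.sqrt n₁) * Y * (1 / (m₁ * η))) := by
        field_simp
      rw [e1]
      have h3 : n₁ / m₁ ≤ 1 := by rw [div_le_one hm]; linarith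
      have h4 : n₁ * (n₁ / m₁) ≤ (u : ℝ) ^ 11 * n₁ := by
        calc n₁ * (n₁ / m₁) ≤ n₁ * 1 := mul_le_mul_of_nonneg_left h3 (by linarith)
          _ = 1 * n₁ := by ring
          _ ≤ (u : ℝ) ^ 11 * n₁ := by gcongr
      have h5 : 16 * n₁ * X u (1 - q) * (1 / (m₁ * η)) ≤ 16 * ((u : ℝ) ^ 11 * n₁) := by
        have h7 : (u : ℝ) ^ 10 ≤ (u : ℝ) ^ 11 := pow_le_pow_right₀ hu' (by norm_num)
        calc 16 * n₁ * X u (1 - q) * (1 / (m₁ * η)) ≤ 16 * n₁ * 1 * (u : ℝ) ^ 11 := by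
              have h8 := hi.trans h7
              gcongr
          _ = _ := by ring
      have h6 : 6 * (u : ℝ) * (n₁ * Real.sqrt n₁) * Y * (1 / (m₁ * η)) ≤
          6 * ((u : ℝ) ^ 11 * (n₁ * Real.sqrt n₁ * Y)) := by
        calc 6 * (u : ℝ) * (n₁ * Real.sqrt n₁) * Y * (1 / (m₁ * η))
            ≤ 6 * (u : ℝ) * (n₁ * Real.sqrt n₁) * Y * (u : ℝ) ^ 10 := by gcongr
          _ = _ := by ring
      have h9 : 0 ≤ (u : ℝ) ^ 11 * (n₁ * Real.sqrt n₁ * Y) := by positivity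
      have h10 : 0 ≤ (u : ℝ) ^ 11 * n₁ := by positivity
      calc κ * (n₁ * (n₁ / m₁) + 16 * n₁ * X u (1 - q) * (1 / (m₁ * η)) +
            6 * (u : ℝ) * (n₁ * Real.sqrt n₁) * Y * (1 / (m₁ * η)))
          ≤ κ * (23 * ((u : ℝ) ^ 11 * n₁) + 23 * ((u : ℝ) ^ 11 * (n₁ * Real.sqrt n₁ * Y))) := by
            apply mul_le_mul_of_nonneg_left _ (by linarith)
            linarith
        _ = _ := by ring
    have e2 : u * C₄ * n₁ * (86016 * X u (1 - q) / η) / m₁ ^ 3 * (42 / η) * W * (4 * M) =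
        C₄ * 168 * 86016 * (u : ℝ) * X u (1 - q) * (1 / (m₁ * η)) ^ 2 * W * (n₁ / m₁ * M) := by
      field_simp
      ring
    rw [e2]
    have h11 : (1 / (m₁ * η)) ^ 2 ≤ ((u : ℝ) ^ 10) ^ 2 := pow_le_pow_left₀ (by positivity) hi 2
    have h12 : 0 ≤ n₁ / m₁ * M := by positivity
    have hXe : X u (q - ε₀) ≤ X u e₀ := X_mono u (le_max_left _ _)
    have h13 : 0 ≤ n₁ ^ (3 / 2 : ℝ) := Real.rpow_nonneg (by linarith) _
    calc C₄ * 168 * 86016 * (u : ℝ) * X u (1 - q) * (1 / (m₁ * η)) ^ 2 * W * (n₁ / m₁ * M)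
        ≤ C₄ * 168 * 86016 * (u : ℝ) * 1 * ((u : ℝ) ^ 10) ^ 2 * W *
          (κ * 23 * (u : ℝ) ^ 11 * (n₁ + n₁ ^ (3 / 2 : ℝ) * Y)) := by gcongr
      _ = C₄ * 168 * 86016 * (κ * 23) * (u : ℝ) ^ 32 * (W * (n₁ + n₁ ^ (3 / 2 : ℝ) * Y)) := by ring
      _ ≤ C₄ * 168 * 86016 * (κ * 23) * (u : ℝ) ^ 32 * (C₀ * (2 : ℝ) ^ ((q - ε₀) * u)) := by gcongr
      _ = P₂ * (u : ℝ) ^ 32 * X u (q - ε₀) := by rw [hP₂]; unfold X; ring
      _ ≤ P₂ * (u : ℝ) ^ 32 * X u e₀ := by gcongr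
  calc ((1 / 2) ^ (16 * u) / (86016 * X u (1 - q) / η) +
      u * C₄ * n₁ * (86016 * X u (1 - q) / η) / m₁ ^ 3) * (42 / η) * W * (4 * M)
      = (1 / 2) ^ (16 * u) / (86016 * X u (1 - q) / η) * (42 / η) * W * (4 * M) +
        u * C₄ * n₁ * (86016 * X u (1 - q) / η) / m₁ ^ 3 * (42 / η) * W * (4 * M) := by ring
    _ ≤ P₁ * (u : ℝ) ^ 32 * X u e₀ + P₂ * (u : ℝ) ^ 32 * X u e₀ := add_le_add hT1 hT2
    _ = (P₁ + P₂) * (u : ℝ) ^ 32 * X u e₀ := by ring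

end Pool.Agent.Helper65.RL
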