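import Pool.Agent.Helper20.RL.St4
import Pool.Agent.Helper65.RL.LNX

/-!
# Project RL, module PNW: the main numbers
-/

set_option autoImplicit false

open MeasureTheory Set Filter Topology

namespace Pool.Agent.Helper65.RL

open Pool.Agent.Helper20.RG Pool.Agent.Helper20.RL

theorem rpow_three_half {x : ℝ} (hx : 0 ≤ x) : x ^ (3 / 2 : ℝ) = x * Real.sqrt x := by
  rcases eq_or_lt_of_le hx with h | h
  · rw [← h]
    rw [Real.zero_rpow (by norm_num)]; simp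
  · rw [Real.sqrt_eq_rpow, show (3 / 2 : ℝ) = 1 + 1 / 2 by norm_num, Real.rpow_add h,
      Real.rpow_one]

/-- the exponents -/
theorem expW {σ q γ β : ℝ} (hσ1 : 1 < σ) (hq1 : 1 ≤ q) (hβ : γ ≤ β) (hγ : 0 < γ) :
    min β σ + max 0 (1 - β / σ) ≤ σ ∧
    min β σ + 3 / 2 * max 0 (1 - β / σ) + (1 - q) / 2 ≤
      max σ (2 + γ - 3 * γ / (2 * σ) - q / 2) := by
  have hσ0 : 0 < σ := by linarith
  rcases le_total σ β with h | h
  · have h1 : 1 - β / σ ≤ 0 := by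
      have : 1 ≤ β / σ := by rw [le_div_iff₀ hσ0]; linarith
      linarith
    rw [max_eq_left h1, min_eq_right h]
    refine ⟨by linarith, le_trans ?_ (le_max_left _ _)⟩
    linarith
  · set t : ℝ := β / σ with ht
    have hβt : β = σ * t := by rw [ht]; field_simp
    have ht1 : t ≤ 1 := by rw [ht, div_le_one hσ0]; exact h
    have ht0 : 0 < t := by rw [ht]; exact div_pos (by linarith) hσ0
    rw [max_eq_right (by linarith : 0 ≤ 1 - t), min_eq_left h]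
    refine ⟨by rw [hβt]; nlinarith, ?_⟩
    set g : ℝ := γ / σ with hg
    have hγg : γ = σ * g := by rw [hg]; field_simp
    have hgt : g ≤ t := by rw [hg, ht]; exact div_le_div_of_nonneg_right hβ hσ0.le
    have e : 3 * γ / (2 * σ) = 3 / 2 * g := by rw [hg]; field_simp
    rw [e]
    rcases le_total (3 / 2) σ with h3 | h3
    · refine le_trans ?_ (le_max_left _ _)
      rw [hβt]
      nlinarith
    · refine le_trans ?_ (le_max_right _ _)
      rw [hβt, hγg]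
      nlinarith [mul_nonneg (by linarith : (0 : ℝ) ≤ 3 / 2 - σ) (by linarith : (0 : ℝ) ≤ t - g)]

theorem hPNW : StPNW := by
  rintro A σ q γ Cf hA ⟨hσ1, hσq, hq2, hγ0, hγq, hex⟩ hCf
  have hσ0 : 0 < σ := by linarith
  have hq0 : 0 < q := by linarith
  set e₀ := max σ (2 + γ - 3 * γ / (2 * σ) - q / 2) with he₀
  have he : e₀ < q := by
    refine max_lt hσq ?_
    have h1 : 3 * γ / (2 * q) ≤ 3 * γ / (2 * σ) :=
      div_le_div_of_nonneg_left (by linarith) (by linarith) (by linarith)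
    linarith
  set P₀ : ℝ := 10 ^ 6 * Cf * ((1 + A) + (1 + A) ^ 2) with hP₀
  have hP₀0 : 0 ≤ P₀ := by positivity
  obtain ⟨C, ε, hC, hε, h⟩ := fin_step (q := q) (e := e₀) (P₀ := P₀) 5 he hP₀0
  refine ⟨C, ε, hC, hε, fun u b K hu hb hK => h u _ ?_⟩
  have hu' : (1 : ℝ) ≤ u := by exact_mod_cast hu
  set β : ℝ := (b : ℝ) / u with hβ
  have hβ1 : γ ≤ β := by
    rw [hβ, le_div_iff₀ (by linarith)]; exact hb.le
  set ν : ℝ := max 0 (1 - β / σ) with hν
  have hns : ns u b A σ ≤ (1 + A) * X u ν := ns_le hu hA hσ0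
  have hns1 := one_le_ns (u := u) (b := b) (σ := σ) hA
  have hW := W_le (u := u) (b := b) (K := K) (σ := σ) (Cf := Cf) hu hCf hK
  obtain ⟨hx1, hx2⟩ := expW (q := q) hσ1 (by linarith) hβ1 hγ0
  have hXν := X_pos u ν
  have hns32 : ns u b A σ ^ (3 / 2 : ℝ) ≤ (1 + A) ^ 2 * X u (3 / 2 * ν) := by
    have h1 : ns u b A σ ^ (3 / 2 : ℝ) ≤ ((1 + A) * X u ν) ^ (3 / 2 : ℝ) :=
      Real.rpow_le_rpow (by linarith) hns (by norm_num)
    refine h1.trans ?_
    rw [Real.mul_rpow (by linarith) hXν.le]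
    have h2 : (1 + A) ^ (3 / 2 : ℝ) ≤ (1 + A) ^ 2 := by
      rw [← Real.rpow_natCast]
      exact Real.rpow_le_rpow_of_exponent_le (by linarith) (by norm_num)
    have h3 : X u ν ^ (3 / 2 : ℝ) = X u (3 / 2 * ν) := by
      unfold X
      rw [← Real.rpow_mul (by norm_num)]
      congr 1
      ring
    rw [h3]
    exact mul_le_mul_of_nonneg_right h2 (X_pos u _).le
  have hXY := X_pos u ((1 - q) / 2)
  have hXm := X_pos u (min β σ)
  have hX3 := X_pos u (3 / 2 * ν)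
  change min (10 ^ 6 * (u : ℝ) ^ 5 * 2 ^ b) (K : ℝ) *
      (ns u b A σ + (ns u b A σ) ^ (3 / 2 : ℝ) * X u ((1 - q) / 2)) ≤ _
  have hn0 : 0 ≤ ns u b A σ := by linarith
  have hn32 : 0 ≤ ns u b A σ ^ (3 / 2 : ℝ) := Real.rpow_nonneg hn0 _
  calc min (10 ^ 6 * (u : ℝ) ^ 5 * 2 ^ b) (K : ℝ) *
      (ns u b A σ + (ns u b A σ) ^ (3 / 2 : ℝ) * X u ((1 - q) / 2))
      ≤ (10 ^ 6 * Cf * (u : ℝ) ^ 5 * X u (min β σ)) *
        ((1 + A) * X u ν + (1 + A) ^ 2 * X u (3 / 2 * ν) * X u ((1 - q) / 2)) := by gcongr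
    _ = 10 ^ 6 * Cf * (u : ℝ) ^ 5 * ((1 + A) * X u (min β σ + ν) +
        (1 + A) ^ 2 * X u (min β σ + 3 / 2 * ν + (1 - q) / 2)) := by
        rw [X_add, X_add, X_add]; ring
    _ ≤ 10 ^ 6 * Cf * (u : ℝ) ^ 5 * ((1 + A) * X u e₀ + (1 + A) ^ 2 * X u e₀) := by
        have h1 : X u (min β σ + ν) ≤ X u e₀ := X_mono u (hx1.trans (le_max_left _ _))
        have h2 : X u (min β σ + 3 / 2 * ν + (1 - q) / 2) ≤ X u e₀ := X_mono u hx2
        gcongr
    _ = P₀ * (u : ℝ) ^ 5 * X u e₀ := by rw [hP₀]; ring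

end Pool.Agent.Helper65.RL
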