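import Pool.Agent.Helper65.RL.LNX

/-!
# Project RL, module LNA
-/

set_option autoImplicit false

open MeasureTheory Set Filter Topology

namespace Pool.Agent.Helper65.RL

open Pool.Agent.Helper20.RG Pool.Agent.Helper20.RL

theorem hLNA : StLNA := by
  intro q hq
  obtain ⟨C, ε, hC, hε, h⟩ := fin_step (q := q) (e := 3 / 2) (P₀ := 70 * 10 ^ 6) 15 hq (by norm_num)
  refine ⟨1, C, ε, hC, hε, fun u b η m₁ hu hN hb => h u _ ?_⟩
  have h1 := inv_m_eta hu hN
  have hu' : (0 : ℝ) < u := by exact_mod_cast hu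
  have h2 : (2 : ℝ) ^ b ≤ X u (1 / 2) := by
    rw [two_pow_b hu b]
    apply X_mono
    rw [div_le_div_iff₀ hu' (by norm_num)]
    have : ((2 * b : ℕ) : ℝ) ≤ (u : ℝ) := by exact_mod_cast hb
    push_cast at this
    linarith
  have h3 : X u (3 / 2) = X u (1 / 2) * X u 1 := by rw [← X_add]; norm_num
  rw [← X_one u, h3]
  have h4 : 70 / (m₁ * η) = 70 * (1 / (m₁ * η)) := by ring
  rw [h4]
  have hm := m_pos hu hN
  have h0 := hN.1
  calc 70 * (1 / (m₁ * η)) * (10 ^ 6 * (u : ℝ) ^ 5 * 2 ^ b) * X u 1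
      ≤ 70 * (u : ℝ) ^ 10 * (10 ^ 6 * (u : ℝ) ^ 5 * X u (1 / 2)) * X u 1 := by
        have := X_pos u 1
        have := X_pos u (1 / 2)
        gcongr
    _ = 70 * 10 ^ 6 * (u : ℝ) ^ 15 * (X u (1 / 2) * X u 1) := by ring

end Pool.Agent.Helper65.RL
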