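import Pool.Agent.Helper65.RL.LNX

/-!
# Project RL, module LNB
-/

set_option autoImplicit false

open MeasureTheory Set Filter Topology

namespace Pool.Agent.Helper65.RL

open Pool.Agent.Helper20.RG Pool.Agent.Helper20.RL

/-- the square root for `m₁ ≤ N` -/
theorem sqrt_le_N {u : ℕ} {q η m₁ : ℝ} (hu : 1 ≤ u) (h : Nm u η m₁) :
    Real.sqrt (X u (-q) * m₁ ^ 3) ≤ X u ((3 - q) / 2) := by
  have hm := m_pos hu h
  have h1 := m_le h
  have h2 : X u (-q) * m₁ ^ 3 ≤ X u ((3 - q) / 2) ^ 2 := by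
    have e1 : X u ((3 - q) / 2) ^ 2 = X u (-q) * X u 1 ^ 3 := by
      have : X u 1 ^ 3 = X u 3 := by
        rw [show (3 : ℝ) = 1 + 1 + 1 by norm_num, X_add, X_add]; ring
      rw [this, ← X_add, sq, ← X_add]; congr 1; ring
    rw [e1]
    exact mul_le_mul_of_nonneg_left (pow_le_pow_left₀ hm.le h1 3) (X_pos u _).le
  calc Real.sqrt (X u (-q) * m₁ ^ 3) ≤ Real.sqrt (X u ((3 - q) / 2) ^ 2) := Real.sqrt_le_sqrt h2
    _ = X u ((3 - q) / 2) := Real.sqrt_sq (X_pos u _).le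

theorem hLNB : StLNB := by
  intro A σ q κ hA hσ hσq hq hκ
  have hσ0 : 0 < σ := by linarith
  -- the exponent is negative
  set i : ℝ := 1 / (2 * σ) with hi
  have hi1 : 2 * σ * i = 1 := by rw [hi]; field_simp
  have he : 1 - i + (3 - q) / 2 - q < 0 := by
    -- `i > 1/(2q)`, `3 q² - 5 q + 1 > 0`
    by_contra hcon
    push Not at hcon
    have h1 : i ≤ 5 / 2 - 3 * q / 2 := by linarith
    have h2 : 1 ≤ 2 * σ * (5 / 2 - 3 * q / 2) := by
      rw [← hi1]; exact mul_le_mul_of_nonneg_left h1 (by positivity)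
    have h3 : 0 < 5 / 2 - 3 * q / 2 := by
      by_contra h4
      push Not at h4
      nlinarith
    nlinarith
  set B : ℝ := 12800 * 43008 * 8 * 9 * κ * (1 + A) with hB
  obtain ⟨u₁, hu₁⟩ := poly_ev 26 (δ := -(1 - i + (3 - q) / 2 - q)) (by linarith) B
  obtain ⟨u₂, hu₂⟩ := poly_ev 10 (δ := q - 1) (by linarith) 16000
  refine ⟨max 1 (max u₁ u₂), fun u b η m₁ hu hN hb => ?_⟩
  have hu1 : 1 ≤ u := le_trans (le_max_left _ _) hu
  have hu2 : u₁ ≤ u := le_trans (le_trans (le_max_left _ _) (le_max_right _ _)) hu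
  have hu3 : u₂ ≤ u := le_trans (le_trans (le_max_right _ _) (le_max_right _ _)) hu
  have hm := m_pos hu1 hN
  have hinv := inv_eta hu1 hN
  have hml := m_le hN
  have h0 := hN.1
  have hu' : (1 : ℝ) ≤ u := by exact_mod_cast hu1
  refine ⟨?_, ?_, ?_⟩
  · rw [X_def_neg]
    have h1 := hu₂ u hu3
    have h2 : 1 / η * 16000 ≤ X u q := by
      calc 1 / η * 16000 ≤ ((u : ℝ) ^ 10 * m₁) * 16000 := by gcongr
        _ ≤ ((u : ℝ) ^ 10 * X u 1) * 16000 := by gcongr
        _ = 16000 * (u : ℝ) ^ 10 * X u 1 := by ring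
        _ ≤ X u (q - 1) * X u 1 := mul_le_mul_of_nonneg_right h1 (X_pos u 1).le
        _ = X u q := by rw [← X_add]; congr 1; ring
    rw [X_neg]
    have h3 := X_pos u q
    have h4 : 16000 ≤ X u q * η := by
      rw [div_mul_eq_mul_div, one_mul, div_le_iff₀ h0] at h2
      exact h2
    have h5 : 2000 * (8 * (X u q)⁻¹) = 16000 / X u q := by field_simp; norm_num
    rw [h5, div_le_iff₀ h3]
    linarith
  · rw [X_def_neg]
    have h1 : (2 : ℝ) ^ (-(6 * (u : ℤ))) = X u (-6) := by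
      unfold X
      rw [← Real.rpow_intCast]
      congr 1
      push_cast
      ring
    rw [h1]
    have h2 : X u (-6) ≤ X u (-q) := X_mono u (by linarith)
    have h3 := X_pos u (-q)
    linarith
  · have hb1 : 1 ≤ b := by omega
    have hns := ns_le' (u := u) (b := b) (A := A) (σ := σ) hu1 hb1 hA hσ0
    have hM := M0_le (u := u) (b := b - 1) (A := A) (σ := σ) (q := q) (κ := κ) hu1 hN
      (by linarith) hA hns
    have hs := sqrt_le_N (q := q) hu1 hN
    have hν : X u (max 0 (1 - (b : ℝ) / u / σ)) ≤ X u (1 - i) := by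
      apply X_mono
      have h1 : (1 : ℝ) / 2 ≤ (b : ℝ) / u := by
        rw [div_le_div_iff₀ (by norm_num) (by linarith)]
        have : (u : ℝ) ≤ ((2 * b : ℕ) : ℝ) := by exact_mod_cast hb.le
        push_cast at this
        linarith
      have h2 : i ≤ (b : ℝ) / u / σ := by
        rw [hi, show 1 / (2 * σ) = 1 / 2 / σ by field_simp]
        exact div_le_div_of_nonneg_right h1 hσ0.le
      have h3 : i ≤ 1 := by
        rw [hi, div_le_one (by positivity)]; linarith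
      exact max_le (by linarith) (by linarith)
    have h16 : (1 : ℝ) ≤ (u : ℝ) ^ 16 := one_le_pow₀ hu'
    have hY : 1 ≤ X u ((3 - q) / 2) := one_le_X u (by linarith)
    have h9 : 1 + 8 * (u : ℝ) ^ 16 * Real.sqrt (X u (-q) * m₁ ^ 3) ≤
        9 * (u : ℝ) ^ 16 * X u ((3 - q) / 2) := by
      have h10 : 1 ≤ (u : ℝ) ^ 16 * X u ((3 - q) / 2) := one_le_mul_of_one_le_of_one_le h16 hY
      have h11 : (u : ℝ) ^ 16 * Real.sqrt (X u (-q) * m₁ ^ 3) ≤
          (u : ℝ) ^ 16 * X u ((3 - q) / 2) := mul_le_mul_of_nonneg_left hs (by positivity)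
      linarith
    have hX1 := X_pos u (1 - i)
    have hX2 := X_pos u (-q)
    have hX3 := X_pos u ((3 - q) / 2)
    have hM2 : M0 κ u (b - 1) A σ (8 * (2 : ℝ) ^ (-(q * u))) (η / 2) ≤
        κ * ((1 + A) * X u (1 - i)) * (9 * (u : ℝ) ^ 16 * X u ((3 - q) / 2)) := by
      refine hM.trans ?_
      gcongr
    have hfin : B * (u : ℝ) ^ 26 * X u (1 - i + (3 - q) / 2 - q) ≤ 1 := by
      have h1 := hu₁ u hu2
      calc B * (u : ℝ) ^ 26 * X u (1 - i + (3 - q) / 2 - q)
          ≤ X u (-(1 - i + (3 - q) / 2 - q)) * X u (1 - i + (3 - q) / 2 - q) :=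
            mul_le_mul_of_nonneg_right h1 (X_pos u _).le
        _ = 1 := by rw [← X_add, neg_add_cancel, X_zero]
    have e1 : 12800 * (43008 * M0 κ u (b - 1) A σ (8 * (2 : ℝ) ^ (-(q * u))) (η / 2) *
        (8 * (2 : ℝ) ^ (-(q * u))) / η) =
        12800 * 43008 * 8 * X u (-q) * M0 κ u (b - 1) A σ (8 * (2 : ℝ) ^ (-(q * u))) (η / 2) *
          (1 / η) := by
      rw [← X_def_neg]; ring
    rw [e1]
    calc 12800 * 43008 * 8 * X u (-q) * M0 κ u (b - 1) A σ (8 * (2 : ℝ) ^ (-(q * u))) (η / 2) *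
          (1 / η)
        ≤ 12800 * 43008 * 8 * X u (-q) *
          (κ * ((1 + A) * X u (1 - i)) * (9 * (u : ℝ) ^ 16 * X u ((3 - q) / 2))) *
          ((u : ℝ) ^ 10 * m₁) := by gcongr
      _ = (B * (u : ℝ) ^ 26 * X u (1 - i + (3 - q) / 2 - q)) * m₁ := by
          have : X u (1 - i + (3 - q) / 2 - q) = X u (1 - i) * X u ((3 - q) / 2) * X u (-q) := by
            rw [← X_add, ← X_add]; congr 1
          rw [this, hB]; ring
      _ ≤ 1 * m₁ := mul_le_mul_of_nonneg_right hfin hm.le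
      _ = m₁ := one_mul _

end Pool.Agent.Helper65.RL
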