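import Pool.Agent.Helper65.RL.LNX

/-!
# Project RL, module LNC
-/

set_option autoImplicit false

open MeasureTheory Set Filter Topology

namespace Pool.Agent.Helper65.RL

open Pool.Agent.Helper20.RG Pool.Agent.Helper20.RL

/-- the exponents -/
theorem expC {σ q β : ℝ} (hσ : 3 / 2 < σ) (hσq : σ < q) (hq : q < 2) (hβ : 1 / 2 ≤ β) :
    min β σ + max 0 (1 - β / σ) + max 0 ((3 * max 0 (1 - β / σ) - q) / 2) ≤
      max σ (3 - q / 2 - 5 / 2 * (1 / (2 * σ))) := by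
  have hσ0 : 0 < σ := by linarith
  rcases le_total σ β with h | h
  · have h1 : 1 - β / σ ≤ 0 := by
      have : 1 ≤ β / σ := by rw [le_div_iff₀ hσ0]; linarith
      linarith
    rw [max_eq_left h1, min_eq_right h]
    have h2 : max (0 : ℝ) ((3 * 0 - q) / 2) = 0 := max_eq_left (by linarith)
    rw [h2]
    linarith [le_max_left σ (3 - q / 2 - 5 / 2 * (1 / (2 * σ)))]
  · set t : ℝ := β / σ with ht
    have hβt : β = σ * t := by rw [ht]; field_simp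
    have ht1 : t ≤ 1 := by rw [ht, div_le_one hσ0]; exact h
    set i : ℝ := 1 / (2 * σ) with hi
    have hi1 : 2 * σ * i = 1 := by rw [hi]; field_simp
    have hti : i ≤ t := by
      rw [hi, ht, show 1 / (2 * σ) = 1 / 2 / σ by field_simp]
      exact div_le_div_of_nonneg_right hβ hσ0.le
    rw [max_eq_right (by linarith : 0 ≤ 1 - t), min_eq_left h]
    rcases le_total ((3 * (1 - t) - q) / 2) 0 with h3 | h3
    · rw [max_eq_left h3]
      refine le_trans ?_ (le_max_left _ _)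
      rw [hβt]
      nlinarith
    · rw [max_eq_right h3]
      refine le_trans ?_ (le_max_right _ _)
      rw [hβt]
      nlinarith [mul_nonneg (by linarith : (0 : ℝ) ≤ 5 / 2 - σ) (by linarith : (0 : ℝ) ≤ t - i)]

theorem expC' {σ q : ℝ} (hσ : 3 / 2 < σ) (hσq : σ < q) (hq : q < 2) :
    max σ (3 - q / 2 - 5 / 2 * (1 / (2 * σ))) < q := by
  have hσ0 : 0 < σ := by linarith
  refine max_lt hσq ?_
  set i : ℝ := 1 / (2 * σ) with hi
  have hi1 : 2 * σ * i = 1 := by rw [hi]; field_simp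
  by_contra hcon
  push Not at hcon
  have h1 : i ≤ (2 * 3 - 3 * q) / 5 := by linarith
  have h2 : 1 ≤ 2 * σ * ((2 * 3 - 3 * q) / 5) := by
    rw [← hi1]; exact mul_le_mul_of_nonneg_left h1 (by positivity)
  have h3 : 0 < 2 * 3 - 3 * q := by linarith
  nlinarith [mul_pos h3 (by linarith : 0 < q - σ)]

theorem hLNC : StLNC := by
  intro A σ q κ Cf hA hσ hσq hq hκ hCf
  have hσ0 : 0 < σ := by linarith
  set e₀ := max σ (3 - q / 2 - 5 / 2 * (1 / (2 * σ))) with he₀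
  have he : e₀ < q := expC' hσ hσq hq
  set P' : ℝ := 1000 * (1 + A) with hP'
  have hP'1 : 1 ≤ P' := by rw [hP']; linarith
  set P₀ : ℝ := 70 * (10 ^ 6 * Cf) * (4 * (κ * (1 + A))) * (9 * P' ^ 2) with hP₀
  have hP₀0 : 0 ≤ P₀ := by positivity
  obtain ⟨C, ε, hC, hε, h⟩ := fin_step (q := q) (e := e₀) (P₀ := P₀) 31 he hP₀0
  refine ⟨1, C, ε, hC, hε, fun u b K η m₁ hu hN hb hK hcase => h u _ ?_⟩
  have hu' : (1 : ℝ) ≤ u := by exact_mod_cast hu
  have hm := m_pos hu hN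
  have h0 := hN.1
  set β : ℝ := (b : ℝ) / u with hβ
  have hβ1 : 1 / 2 ≤ β := by
    rw [hβ, div_le_div_iff₀ (by norm_num) (by linarith)]
    have : (u : ℝ) ≤ ((2 * b : ℕ) : ℝ) := by exact_mod_cast hb.le
    push_cast at this
    linarith
  set ν : ℝ := max 0 (1 - β / σ) with hν
  have hns : ns u b A σ ≤ (1 + A) * X u ν := ns_le hu hA hσ0
  have hν0 : 0 ≤ ν := le_max_left _ _
  have hXν : 1 ≤ X u ν := one_le_X u hν0
  have hmP : m₁ ≤ P' * X u ν := by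
    rcases hcase with h1 | h1
    · have : (1 : ℝ) ≤ (1 + A) * X u ν := one_le_mul_of_one_le_of_one_le (by linarith) hXν
      rw [hP']
      nlinarith
    · have h2 : 0 < (1 + A) * X u ν := by positivity
      rw [hP']
      nlinarith
  have hsq : Real.sqrt (X u (-q) * m₁ ^ 3) ≤ P' ^ 2 * X u ((3 * ν - q) / 2) := by
    have h1 : X u (-q) * m₁ ^ 3 ≤ (P' ^ 2 * X u ((3 * ν - q) / 2)) ^ 2 := by
      have e1 : (P' ^ 2 * X u ((3 * ν - q) / 2)) ^ 2 = P' ^ 4 * (X u (-q) * X u ν ^ 3) := by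
        have e2 : X u ((3 * ν - q) / 2) ^ 2 = X u (-q) * X u ν ^ 3 := by
          have e3 : X u ν ^ 3 = X u (3 * ν) := by
            rw [show 3 * ν = ν + ν + ν by ring, X_add, X_add]; ring
          rw [e3, ← X_add, sq, ← X_add]; congr 1; ring
        rw [mul_pow, e2]; ring
      rw [e1]
      have h2 : m₁ ^ 3 ≤ (P' * X u ν) ^ 3 := pow_le_pow_left₀ hm.le hmP 3
      have h3 : P' ^ 3 ≤ P' ^ 4 := pow_le_pow_right₀ hP'1 (by norm_num)
      have h4 := X_pos u (-q)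
      have h5 : 0 < X u ν := X_pos u ν
      calc X u (-q) * m₁ ^ 3 ≤ X u (-q) * (P' * X u ν) ^ 3 := by gcongr
        _ = P' ^ 3 * (X u (-q) * X u ν ^ 3) := by ring
        _ ≤ P' ^ 4 * (X u (-q) * X u ν ^ 3) := by gcongr
    have h6 : 0 ≤ P' ^ 2 * X u ((3 * ν - q) / 2) := by
      have := X_pos u ((3 * ν - q) / 2)
      positivity
    calc Real.sqrt (X u (-q) * m₁ ^ 3) ≤ Real.sqrt ((P' ^ 2 * X u ((3 * ν - q) / 2)) ^ 2) :=
          Real.sqrt_le_sqrt h1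
      _ = _ := Real.sqrt_sq h6
  have hM := M0_le (u := u) (b := b) (A := A) (σ := σ) (q := q) (κ := κ) hu hN
      (by linarith) hA hns
  set ρ : ℝ := max 0 ((3 * ν - q) / 2) with hρ
  have hXρ : 1 ≤ X u ρ := one_le_X u (le_max_left _ _)
  have h16 : (1 : ℝ) ≤ (u : ℝ) ^ 16 := one_le_pow₀ hu'
  have hP2 : 1 ≤ P' ^ 2 := one_le_pow₀ hP'1
  have h9 : 1 + 8 * (u : ℝ) ^ 16 * Real.sqrt (X u (-q) * m₁ ^ 3) ≤
      9 * P' ^ 2 * (u : ℝ) ^ 16 * X u ρ := by
    have h10 : 1 ≤ P' ^ 2 * ((u : ℝ) ^ 16 * X u ρ) :=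
      one_le_mul_of_one_le_of_one_le hP2 (one_le_mul_of_one_le_of_one_le h16 hXρ)
    have h11 : X u ((3 * ν - q) / 2) ≤ X u ρ := X_mono u (le_max_right _ _)
    have h12 : (u : ℝ) ^ 16 * Real.sqrt (X u (-q) * m₁ ^ 3) ≤
        (u : ℝ) ^ 16 * (P' ^ 2 * X u ρ) := by
      apply mul_le_mul_of_nonneg_left _ (by positivity)
      refine hsq.trans ?_
      exact mul_le_mul_of_nonneg_left h11 (by positivity)
    nlinarith
  have hM2 : M0 κ u b A σ (8 * (2 : ℝ) ^ (-(q * u))) (η / 2) ≤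
      κ * ((1 + A) * X u ν) * (9 * P' ^ 2 * (u : ℝ) ^ 16 * X u ρ) := by
    refine hM.trans ?_
    have := X_pos u ν
    gcongr
  have hW := W_le (u := u) (b := b) (K := K) (σ := σ) (Cf := Cf) hu hCf hK
  have hi := inv_m_eta hu hN
  have hX : X u (min β σ + ν + ρ) ≤ X u e₀ := X_mono u (expC hσ hσq hq hβ1)
  have e1 : 70 / (m₁ * η) = 70 * (1 / (m₁ * η)) := by ring
  rw [e1]
  have hM0 : 0 ≤ M0 κ u b A σ (8 * (2 : ℝ) ^ (-(q * u))) (η / 2) :=
    le_trans zero_le_one (one_le_M0 hκ hA)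
  have hXm := X_pos u (min β σ)
  calc 70 * (1 / (m₁ * η)) * min (10 ^ 6 * (u : ℝ) ^ 5 * 2 ^ b) (K : ℝ) *
      (4 * M0 κ u b A σ (8 * (2 : ℝ) ^ (-(q * u))) (η / 2))
      ≤ 70 * (u : ℝ) ^ 10 * (10 ^ 6 * Cf * (u : ℝ) ^ 5 * X u (min β σ)) *
        (4 * (κ * ((1 + A) * X u ν) * (9 * P' ^ 2 * (u : ℝ) ^ 16 * X u ρ))) := by gcongr
    _ = P₀ * (u : ℝ) ^ 31 * X u (min β σ + ν + ρ) := by
        rw [X_add, X_add, hP₀]; ring
    _ ≤ P₀ * (u : ℝ) ^ 31 * X u e₀ := by gcongr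

end Pool.Agent.Helper65.RL
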