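import Pool.Agent.Helper65.RL.LNX
import Pool.Agent.Helper65.RL.M_LNB

/-!
# Project RL, module LND
-/

set_option autoImplicit false

open MeasureTheory Set Filter Topology

namespace Pool.Agent.Helper65.RL

open Pool.Agent.Helper20.RG Pool.Agent.Helper20.RL

/-- the exponents of the second term -/
theorem expD {σ q β : ℝ} (hσ : 3 / 2 < σ) (hq : q < 2) (hσq : σ < q) (hβ : 1 / 2 ≤ β) :
    3 * max 0 (1 - β / σ) + min β σ + 2 - 2 * q ≤
      max (σ + 2 - 2 * q) (11 / 2 - 3 * (1 / (2 * σ)) - 2 * q) := by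
  have hσ0 : 0 < σ := by linarith
  rcases le_total σ β with h | h
  · have h1 : 1 - β / σ ≤ 0 := by
      have : 1 ≤ β / σ := by rw [le_div_iff₀ hσ0]; linarith
      linarith
    rw [max_eq_left h1, min_eq_right h]
    refine le_trans ?_ (le_max_left _ _)
    linarith
  · set t : ℝ := β / σ with ht
    have hβt : β = σ * t := by rw [ht]; field_simp
    have ht1 : t ≤ 1 := by rw [ht, div_le_one hσ0]; exact h
    set i : ℝ := 1 / (2 * σ) with hi
    have hi1 : 2 * σ * i = 1 := by rw [hi]; field_simp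
    have hti : i ≤ t := by
      rw [hi, ht, show 1 / (2 * σ) = 1 / 2 / σ by field_simp]
      exact div_le_div_of_nonneg_right hβ hσ0.le
    rw [max_eq_right (by linarith : 0 ≤ 1 - t), min_eq_left h]
    refine le_trans ?_ (le_max_right _ _)
    rw [hβt]
    nlinarith [mul_nonneg (by linarith : (0 : ℝ) ≤ 3 - σ) (by linarith : (0 : ℝ) ≤ t - i)]

theorem expD' {σ q : ℝ} (hσ : 3 / 2 < σ) (hσq : σ < q) (hq : q < 2) :
    max (σ + 2 - 2 * q) (11 / 2 - 3 * (1 / (2 * σ)) - 2 * q) < q := by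
  have hσ0 : 0 < σ := by linarith
  refine max_lt (by linarith) ?_
  set i : ℝ := 1 / (2 * σ) with hi
  have hi1 : 2 * σ * i = 1 := by rw [hi]; field_simp
  by_contra hcon
  push Not at hcon
  have h1 : i ≤ (11 / 2 - 3 * q) / 3 := by linarith
  have h2 : 1 ≤ 2 * σ * ((11 / 2 - 3 * q) / 3) := by
    rw [← hi1]; exact mul_le_mul_of_nonneg_left h1 (by positivity)
  have h3 : 0 < 11 / 2 - 3 * q := by
    by_contra h4
    push Not at h4
    nlinarith
  nlinarith [mul_pos h3 (by linarith : 0 < q - σ), mul_pos (by linarith : 0 < 2 * q - 3)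
    (by linarith : 0 < 3 * q - 1)]

theorem hLND : StLND := by
  intro A σ q κ C₄ Cf hA hσ hσq hq hκ hC₄ hCf
  have hσ0 : 0 < σ := by linarith
  set e₁ := max (σ + 2 - 2 * q) (11 / 2 - 3 * (1 / (2 * σ)) - 2 * q) with he₁
  set e₀ := max e₁ 0 with he₀
  have he : e₀ < q := max_lt (expD' hσ hσq hq) (by linarith)
  -- the common constant: `κ (1 + A)`
  set Q : ℝ := κ * (1 + A) with hQ
  have hQ1 : 1 ≤ Q := one_le_mul_of_one_le_of_one_le hκ (by linarith)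
  set P₁ : ℝ := 42 * (10 ^ 6 * Cf) * (4 * (Q * 9)) with hP₁
  set P₂ : ℝ := C₄ * (1 + A) * (43008 * 8) * 42 * (10 ^ 6 * Cf) * 4 * (Q ^ 2 * 130) * 2 with hP₂
  have hP₁0 : 0 ≤ P₁ := by positivity
  have hP₂0 : 0 ≤ P₂ := by positivity
  obtain ⟨C, ε, hC, hε, h⟩ := fin_step (q := q) (e := e₀) (P₀ := P₁ + P₂) 61 he (by positivity)
  refine ⟨1, C, ε, hC, hε, fun u b K η m₁ hu hN hb hK => h u _ ?_⟩
  have hu' : (1 : ℝ) ≤ u := by exact_mod_cast hu
  have hm := m_pos hu hN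
  have h0 := hN.1
  have hη1 := hN.2.1
  have hml := m_le hN
  have hmi := m_inv hu hN
  have hinv := inv_eta hu hN
  have hb1 : 1 ≤ b := by omega
  set β : ℝ := (b : ℝ) / u with hβ
  have hβ1 : 1 / 2 ≤ β := by
    rw [hβ, div_le_div_iff₀ (by norm_num) (by linarith)]
    have : (u : ℝ) ≤ ((2 * b : ℕ) : ℝ) := by exact_mod_cast hb.le
    push_cast at this
    linarith
  set ν : ℝ := max 0 (1 - β / σ) with hν
  have hns : ns u b A σ ≤ (1 + A) * X u ν := ns_le hu hA hσ0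
  have hns' : ns u (b - 1) A σ ≤ (1 + A) * X u ν := ns_le' hu hb1 hA hσ0
  have hν0 : 0 ≤ ν := le_max_left _ _
  have hν1 : ν ≤ 1 := by
    have : 0 ≤ β / σ := by positivity
    exact max_le (by norm_num) (by linarith)
  have hXν : 1 ≤ X u ν := one_le_X u hν0
  set r : ℝ := Real.sqrt (X u (-q) * m₁ ^ 3) with hr
  have hr0 : 0 ≤ r := Real.sqrt_nonneg _
  have hr2 : r ^ 2 = X u (-q) * m₁ ^ 3 := by
    rw [hr, Real.sq_sqrt]
    have := X_pos u (-q)
    positivity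
  have hrN : r ≤ X u ((3 - q) / 2) := sqrt_le_N hu hN
  have hM := M0_le (u := u) (b := b) (A := A) (σ := σ) (q := q) (κ := κ) hu hN
      (by linarith) hA hns
  have hM' := M0_le (u := u) (b := b - 1) (A := A) (σ := σ) (q := q) (κ := κ) hu hN
      (by linarith) hA hns'
  set M : ℝ := M0 κ u b A σ (8 * (2 : ℝ) ^ (-(q * u))) (η / 2) with hMdef
  set M' : ℝ := M0 κ u (b - 1) A σ (8 * (2 : ℝ) ^ (-(q * u))) (η / 2) with hM'def
  have hM1 : 1 ≤ M := one_le_M0 hκ hA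
  have hM'1 : 1 ≤ M' := one_le_M0 hκ hA
  rw [X_def_neg]
  set W : ℝ := min (10 ^ 6 * (u : ℝ) ^ 5 * 2 ^ b) (K : ℝ) with hWdef
  have hW : W ≤ 10 ^ 6 * Cf * (u : ℝ) ^ 5 * X u (min β σ) :=
    W_le (u := u) (b := b) (K := K) (σ := σ) (Cf := Cf) hu hCf hK
  have hW0 : 0 ≤ W := le_min (by positivity) (by positivity)
  have hq0 := X_pos u (-q)
  have h16 : (1 : ℝ) ≤ (u : ℝ) ^ 16 := one_le_pow₀ hu'
  have hu0 : (0 : ℝ) < u := by linarith
  -- the number `Dx`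
  set Dx : ℝ := 43008 * M' * (8 * X u (-q)) / η with hDx
  have hDx1 : X u (-q) ≤ Dx := by
    rw [hDx, le_div_iff₀ h0]
    have h1 : X u (-q) * η ≤ X u (-q) * 1 := mul_le_mul_of_nonneg_left hη1 hq0.le
    have h2 : X u (-q) ≤ M' * X u (-q) := le_mul_of_one_le_left hq0.le hM'1
    nlinarith
  have hDx0 : 0 < Dx := lt_of_lt_of_le hq0 hDx1
  have hDx2 : Dx ≤ 43008 * 8 * M' * X u (-q) * ((u : ℝ) ^ 10 * m₁) := by
    have e1 : Dx = 43008 * 8 * M' * X u (-q) * (1 / η) := by rw [hDx]; ring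
    rw [e1]
    gcongr
  -- first term
  have hT1 : (1 / 2) ^ (16 * u) / Dx * (42 / η) * W * (4 * M) ≤ P₁ * (u : ℝ) ^ 61 * X u e₀ := by
    have h1 : ((1 : ℝ) / 2) ^ (16 * u) = X u (-16) := by
      unfold X
      rw [one_div, inv_pow, ← Real.rpow_natCast, ← Real.rpow_neg (by norm_num)]
      congr 1
      push_cast
      ring
    have h2 : (1 / 2) ^ (16 * u) / Dx ≤ X u (-16 + q) := by
      rw [h1, div_le_iff₀ hDx0]
      calc X u (-16) = X u (-16 + q) * X u (-q) := by rw [← X_add]; congr 1; ring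
        _ ≤ X u (-16 + q) * Dx := mul_le_mul_of_nonneg_left hDx1 (X_pos u _).le
    have h3 : 42 / η ≤ 42 * ((u : ℝ) ^ 10 * X u 1) := by
      have e1 : 42 / η = 42 * (1 / η) := by ring
      rw [e1]
      have : 1 / η ≤ (u : ℝ) ^ 10 * X u 1 := hinv.trans (by gcongr)
      linarith
    have h4 : W ≤ 10 ^ 6 * Cf * (u : ℝ) ^ 5 * X u 2 := by
      refine hW.trans ?_
      have : X u (min β σ) ≤ X u 2 := X_mono u ((min_le_right _ _).trans (by linarith))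
      gcongr
    have hY : 1 ≤ X u 1 := one_le_X u (by norm_num)
    have h5 : M ≤ Q * X u 1 * (9 * (u : ℝ) ^ 16 * X u 1) := by
      refine hM.trans ?_
      have h6 : r ≤ X u 1 := hrN.trans (X_mono u (by linarith))
      have h7 : X u ν ≤ X u 1 := X_mono u hν1
      have h8 : 1 + 8 * (u : ℝ) ^ 16 * r ≤ 9 * (u : ℝ) ^ 16 * X u 1 := by
        have h10 : 1 ≤ (u : ℝ) ^ 16 * X u 1 := one_le_mul_of_one_le_of_one_le h16 hY
        have h11 : (u : ℝ) ^ 16 * r ≤ (u : ℝ) ^ 16 * X u 1 :=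
          mul_le_mul_of_nonneg_left h6 (by positivity)
        linarith
      have e2 : Q * X u 1 * (9 * (u : ℝ) ^ 16 * X u 1) =
          κ * ((1 + A) * X u 1) * (9 * (u : ℝ) ^ 16 * X u 1) := by rw [hQ]; ring
      rw [e2]
      have := X_pos u ν
      gcongr
    have hXa := X_pos u (-16 + q)
    have hXb := X_pos u 1
    have hXc := X_pos u 2
    have h31 : (u : ℝ) ^ 31 ≤ (u : ℝ) ^ 61 := pow_le_pow_right₀ hu' (by norm_num)
    have hXe : X u (-16 + q + 1 + 2 + 1 + 1) ≤ X u e₀ :=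
      X_mono u (le_trans (by linarith) (le_max_right _ _))
    have hXe0 := X_pos u (-16 + q + 1 + 2 + 1 + 1)
    calc (1 / 2) ^ (16 * u) / Dx * (42 / η) * W * (4 * M)
        ≤ X u (-16 + q) * (42 * ((u : ℝ) ^ 10 * X u 1)) *
          (10 ^ 6 * Cf * (u : ℝ) ^ 5 * X u 2) *
          (4 * (Q * X u 1 * (9 * (u : ℝ) ^ 16 * X u 1))) := by gcongr
      _ = P₁ * (u : ℝ) ^ 31 * X u (-16 + q + 1 + 2 + 1 + 1) := by
          have e5 : X u (-16 + q + 1 + 2 + 1 + 1) =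
              X u (-16 + q) * X u 1 * X u 2 * X u 1 * X u 1 := by
            rw [← X_add, ← X_add, ← X_add, ← X_add]
          rw [e5, hP₁]
          generalize X u (-16 + q) = z
          ring
      _ ≤ P₁ * (u : ℝ) ^ 61 * X u e₀ := by gcongr
  -- second term
  have hT2 : u * C₄ * ns u b A σ * Dx / m₁ ^ 3 * (42 / η) * W * (4 * M) ≤
      P₂ * (u : ℝ) ^ 61 * X u e₀ := by
    -- `M M' ≤ Q² X(2ν) 130 u^32 (1 + r²)`
    have hMM : M * M' ≤ Q ^ 2 * 130 * (u : ℝ) ^ 32 * X u ν ^ 2 * (1 + r ^ 2) := by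
      have h1 : (1 + 8 * (u : ℝ) ^ 16 * r) ^ 2 ≤ 130 * (u : ℝ) ^ 32 * (1 + r ^ 2) := by
        have h2 : (u : ℝ) ^ 32 = ((u : ℝ) ^ 16) ^ 2 := by ring
        rw [h2]
        set v : ℝ := (u : ℝ) ^ 16
        have hv : 1 ≤ v := h16
        have hv2 : 1 ≤ v ^ 2 := one_le_pow₀ hv
        nlinarith [sq_nonneg (1 - 8 * v * r), sq_nonneg (v * r)]
      have hpos : 0 ≤ κ * ((1 + A) * X u ν) * (1 + 8 * (u : ℝ) ^ 16 * r) := by positivity
      calc M * M' ≤ (κ * ((1 + A) * X u ν) * (1 + 8 * (u : ℝ) ^ 16 * r)) *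
            (κ * ((1 + A) * X u ν) * (1 + 8 * (u : ℝ) ^ 16 * r)) :=
            mul_le_mul hM hM' (by linarith) hpos
        _ = Q ^ 2 * X u ν ^ 2 * (1 + 8 * (u : ℝ) ^ 16 * r) ^ 2 := by rw [hQ]; ring
        _ ≤ Q ^ 2 * X u ν ^ 2 * (130 * (u : ℝ) ^ 32 * (1 + r ^ 2)) := by gcongr
        _ = _ := by ring
    -- `(1 + r²)/m₁ ≤ 2 u^3 X(2-q)`
    have hfr : (1 + r ^ 2) / m₁ ≤ 2 * (u : ℝ) ^ 3 * X u (2 - q) := by
      rw [hr2, add_div]
      have h1 : X u (-q) * m₁ ^ 3 / m₁ = X u (-q) * m₁ ^ 2 := by field_simp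
      rw [h1]
      have h2 : X u (-q) * m₁ ^ 2 ≤ X u (2 - q) := by
        calc X u (-q) * m₁ ^ 2 ≤ X u (-q) * X u 1 ^ 2 := by gcongr
          _ = X u (2 - q) := by rw [sq, ← X_add, ← X_add]; congr 1; ring
      have h3 : 1 ≤ X u (2 - q) := one_le_X u (by linarith)
      have h4 : (1 : ℝ) ≤ (u : ℝ) ^ 3 := one_le_pow₀ hu'
      have h5 : 1 / m₁ ≤ (u : ℝ) ^ 3 * X u (2 - q) := by
        refine hmi.trans ?_
        exact le_mul_of_one_le_right (by positivity) h3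
      have h6 : X u (2 - q) ≤ (u : ℝ) ^ 3 * X u (2 - q) :=
        le_mul_of_one_le_left (by linarith) h4
      linarith
    have hns1 := one_le_ns (u := u) (b := b) (σ := σ) hA
    have hXν0 : 0 < X u ν := X_pos u ν
    have hXm := X_pos u (min β σ)
    have hX2q := X_pos u (2 - q)
    have e1 : (42 : ℝ) / η = 42 * (1 / η) := by ring
    have h5 : u * C₄ * ns u b A σ * Dx / m₁ ^ 3 * (42 / η) * W * (4 * M) ≤
        u * C₄ * ((1 + A) * X u ν) * (43008 * 8 * M' * X u (-q) * ((u : ℝ) ^ 10 * m₁)) / m₁ ^ 3 *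
          (42 * ((u : ℝ) ^ 10 * m₁)) * (10 ^ 6 * Cf * (u : ℝ) ^ 5 * X u (min β σ)) * (4 * M) := by
      rw [e1]
      gcongr
    refine h5.trans ?_
    have e2 : u * C₄ * ((1 + A) * X u ν) * (43008 * 8 * M' * X u (-q) * ((u : ℝ) ^ 10 * m₁)) /
          m₁ ^ 3 * (42 * ((u : ℝ) ^ 10 * m₁)) *
          (10 ^ 6 * Cf * (u : ℝ) ^ 5 * X u (min β σ)) * (4 * M) =
        C₄ * (1 + A) * (43008 * 8) * 42 * (10 ^ 6 * Cf) * 4 * (u : ℝ) ^ 26 * X u ν * X u (-q) *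
          X u (min β σ) * ((M * M') / m₁) := by
      field_simp
    rw [e2]
    have h6 : (M * M') / m₁ ≤ Q ^ 2 * 130 * (u : ℝ) ^ 32 * X u ν ^ 2 *
        (2 * (u : ℝ) ^ 3 * X u (2 - q)) := by
      calc (M * M') / m₁ ≤ (Q ^ 2 * 130 * (u : ℝ) ^ 32 * X u ν ^ 2 * (1 + r ^ 2)) / m₁ :=
            div_le_div_of_nonneg_right hMM hm.le
        _ = Q ^ 2 * 130 * (u : ℝ) ^ 32 * X u ν ^ 2 * ((1 + r ^ 2) / m₁) := by ring
        _ ≤ _ := by gcongr
    have hexp : X u (3 * ν + min β σ + 2 - 2 * q) ≤ X u e₀ :=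
      X_mono u ((expD hσ hq hσq hβ1).trans (le_max_left _ _))
    have e3 : X u (3 * ν + min β σ + 2 - 2 * q) =
        X u ν ^ 3 * X u (-q) * X u (min β σ) * X u (2 - q) := by
      have : X u ν ^ 3 = X u (3 * ν) := by
        rw [show 3 * ν = ν + ν + ν by ring, X_add, X_add]; ring
      rw [this, ← X_add, ← X_add, ← X_add]; congr 1; ring
    calc C₄ * (1 + A) * (43008 * 8) * 42 * (10 ^ 6 * Cf) * 4 * (u : ℝ) ^ 26 * X u ν * X u (-q) *
          X u (min β σ) * ((M * M') / m₁)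
        ≤ C₄ * (1 + A) * (43008 * 8) * 42 * (10 ^ 6 * Cf) * 4 * (u : ℝ) ^ 26 * X u ν * X u (-q) *
          X u (min β σ) * (Q ^ 2 * 130 * (u : ℝ) ^ 32 * X u ν ^ 2 *
        (2 * (u : ℝ) ^ 3 * X u (2 - q))) := by gcongr
      _ = P₂ * (u : ℝ) ^ 61 * X u (3 * ν + min β σ + 2 - 2 * q) := by
          rw [e3, hP₂]; ring
      _ ≤ P₂ * (u : ℝ) ^ 61 * X u e₀ := by gcongr
  calc ((1 / 2) ^ (16 * u) / Dx + u * C₄ * ns u b A σ * Dx / m₁ ^ 3) * (42 / η) * W * (4 * M)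
      = (1 / 2) ^ (16 * u) / Dx * (42 / η) * W * (4 * M) +
        u * C₄ * ns u b A σ * Dx / m₁ ^ 3 * (42 / η) * W * (4 * M) := by ring
    _ ≤ P₁ * (u : ℝ) ^ 61 * X u e₀ + P₂ * (u : ℝ) ^ 61 * X u e₀ := add_le_add hT1 hT2
    _ = (P₁ + P₂) * (u : ℝ) ^ 61 * X u e₀ := by ring

end Pool.Agent.Helper65.RL
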